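import Mathlib

set_option autoImplicit false

/-!
# Deleting an edge to lower the mean subtree order

For a finite connected graph `G` let `μ(G)` be the mean order of the subtrees of `G`, and let
`σ²(G)` be the variance of the order of a uniform random subtree. If `G` has no bridge, or if the
number `β` of the bridges of `G` satisfies `β < 2 σ(G)`, then some edge `e` of `G` is not a bridge and
satisfies `μ(G \ e) < μ(G)`.

Proof. For a uniform random subtree `T` one has `|T| = 1 + ∑ₑ [e ∈ T]`, so the covariances of the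
indicators `[e ∈ T]` with `|T|` add up to `σ²`. Each of them is at most `σ / 2` by Cauchy–Schwarz, so
the bridges contribute at most `β σ / 2 < σ²`, and some edge `e` which is not a bridge has positive
covariance. This says that the subtrees avoiding `e` have mean order less than `μ(G)`.
-/

namespace Pool.Agent.Results.MP_d417b4_co.FewBridges

open Finset SimpleGraph

/-- The subtrees of `G`: the trees `H` on vertices of `V` all of whose edges are edges of `G`. They are
taken as subgraphs of the complete graph on `V`; a single vertex is a subtree. -/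
noncomputable def subtrees {V : Type*} [Finite V] (G : SimpleGraph V) :
    Finset (⊤ : SimpleGraph V).Subgraph :=
  {H : (⊤ : SimpleGraph V).Subgraph | H.coe.IsTree ∧ H.edgeSet ⊆ G.edgeSet}.toFinite.toFinset

/-- The mean order of the subtrees of `G`. -/
noncomputable def meanOrder {V : Type*} [Finite V] (G : SimpleGraph V) : ℝ :=
  (∑ H ∈ subtrees G, (H.verts.ncard : ℝ)) / (subtrees G).card

/-- The variance of the order of a uniform random subtree of `G`. -/
noncomputable def variance {V : Type*} [Finite V] (G : SimpleGraph V) : ℝ :=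
  (∑ H ∈ subtrees G, ((H.verts.ncard : ℝ) - meanOrder G) ^ 2) / (subtrees G).card

/-- The set of the bridges of `G`: the edges whose deletion disconnects their ends. -/
def bridges {V : Type*} (G : SimpleGraph V) : Set (Sym2 V) :=
  {e | e ∈ G.edgeSet ∧ G.IsBridge e}

section

variable {V : Type*} [Finite V] {G : SimpleGraph V}

theorem mem_subtrees {H : (⊤ : SimpleGraph V).Subgraph} :
    H ∈ subtrees G ↔ H.coe.IsTree ∧ H.edgeSet ⊆ G.edgeSet := by
  unfold subtrees
  rw [Set.Finite.mem_toFinset]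
  rfl

omit [Finite V] in
theorem ncard_coe_edgeSet (H : (⊤ : SimpleGraph V).Subgraph) :
    H.edgeSet.ncard = Nat.card H.coe.edgeSet := by
  rw [← Subgraph.image_coe_edgeSet_coe, Set.ncard_image_of_injective _
    (Sym2.map.injective Subtype.val_injective)]
  rfl

theorem isTree_iff (H : (⊤ : SimpleGraph V).Subgraph) :
    H.coe.IsTree ↔ H.coe.Connected ∧ H.edgeSet.ncard + 1 = H.verts.ncard := by
  rw [isTree_iff_connected_and_card, ncard_coe_edgeSet]
  rfl

theorem singleton_mem (v : V) : (⊤ : SimpleGraph V).singletonSubgraph v ∈ subtrees G := by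
  rw [mem_subtrees, isTree_iff]
  refine ⟨⟨(Subgraph.singletonSubgraph_connected).coe, ?_⟩, ?_⟩
  · rw [edgeSet_singletonSubgraph, Set.ncard_empty, singletonSubgraph_verts, Set.ncard_singleton]
  · rw [edgeSet_singletonSubgraph]
    exact Set.empty_subset _

theorem edge_mem {u v : V} (h : G.Adj u v) :
    (⊤ : SimpleGraph V).subgraphOfAdj (show (⊤ : SimpleGraph V).Adj u v from h.ne) ∈ subtrees G := by
  rw [mem_subtrees, isTree_iff]
  refine ⟨⟨(Subgraph.subgraphOfAdj_connected _).coe, ?_⟩, ?_⟩
  · rw [edgeSet_subgraphOfAdj, Set.ncard_singleton, subgraphOfAdj_verts, Set.ncard_pair h.ne]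
  · rw [edgeSet_subgraphOfAdj]
    simpa using h

end

/-- The variance identity, for a finite set `S` of objects `H` of size `f H = 1 + ∑ x e H`. -/
theorem exists_pos {ι α : Type*} [DecidableEq α] (S : Finset ι) (f : ι → ℝ) (E B : Finset α)
    (hB : B ⊆ E) (x : α → ι → ℝ) (hx : ∀ e H, x e H = 0 ∨ x e H = 1)
    (hf : ∀ H ∈ S, ∑ e ∈ E, x e H = f H - 1) (m : ℝ) (hm : ∑ H ∈ S, (f H - m) = 0)
    (hW : 0 < ∑ H ∈ S, (f H - m) ^ 2)
    (hβ : (B.card : ℝ) ^ 2 * S.card < 4 * ∑ H ∈ S, (f H - m) ^ 2) :
    ∃ e ∈ E \ B, 0 < ∑ H ∈ S, x e H * (f H - m) := by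
  set W := ∑ H ∈ S, (f H - m) ^ 2 with hWdef
  set c : α → ℝ := fun e => ∑ H ∈ S, x e H * (f H - m) with hc
  have hsum : ∑ e ∈ E, c e = W := by
    rw [hc, sum_comm, hWdef]
    have h1 : ∀ H ∈ S, ∑ e ∈ E, x e H * (f H - m) = (f H - m) ^ 2 + (m - 1) * (f H - m) := by
      intro H hH
      rw [← sum_mul, hf H hH]
      ring
    rw [sum_congr rfl h1, sum_add_distrib, ← mul_sum, hm, mul_zero, add_zero]
  by_contra hcon
  push Not at hcon
  have hF : ∑ e ∈ E \ B, c e ≤ 0 := sum_nonpos fun e he => hcon e he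
  have hsplit : ∑ e ∈ E \ B, c e + ∑ e ∈ B, c e = ∑ e ∈ E, c e := sum_sdiff hB
  have hWB : W ≤ ∑ e ∈ B, c e := by linarith
  have hcb : ∀ e, c e ^ 2 ≤ (S.card : ℝ) / 4 * W := by
    intro e
    have h1 : c e = ∑ H ∈ S, (x e H - 1 / 2) * (f H - m) := by
      have : ∀ H ∈ S, (x e H - 1 / 2) * (f H - m) = x e H * (f H - m) - 1 / 2 * (f H - m) :=
        fun H _ => by ring
      rw [sum_congr rfl this, sum_sub_distrib, ← mul_sum, hm, mul_zero, sub_zero]
    rw [h1]
    refine (sum_mul_sq_le_sq_mul_sq S _ _).trans ?_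
    have h2 : ∑ H ∈ S, (x e H - 1 / 2) ^ 2 = (S.card : ℝ) / 4 := by
      have : ∀ H ∈ S, (x e H - 1 / 2) ^ 2 = 1 / 4 := by
        intro H _
        rcases hx e H with h | h <;> rw [h] <;> norm_num
      rw [sum_congr rfl this, sum_const, nsmul_eq_mul]
      ring
    rw [h2]
  have h3 : (∑ e ∈ B, c e) ^ 2 ≤ B.card * ∑ e ∈ B, c e ^ 2 := sq_sum_le_card_mul_sum_sq
  have h4 : ∑ e ∈ B, c e ^ 2 ≤ B.card * (S.card / 4 * W) := by
    calc ∑ e ∈ B, c e ^ 2 ≤ ∑ _e ∈ B, (S.card / 4 * W) := sum_le_sum fun e _ => hcb e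
      _ = B.card * (S.card / 4 * W) := by rw [sum_const, nsmul_eq_mul]
  have h5 : W ^ 2 ≤ (B.card : ℝ) ^ 2 * S.card / 4 * W := by
    calc W ^ 2 ≤ (∑ e ∈ B, c e) ^ 2 := pow_le_pow_left₀ hW.le hWB 2
      _ ≤ B.card * ∑ e ∈ B, c e ^ 2 := h3
      _ ≤ B.card * (B.card * (S.card / 4 * W)) := by
          exact mul_le_mul_of_nonneg_left h4 (Nat.cast_nonneg _)
      _ = (B.card : ℝ) ^ 2 * S.card / 4 * W := by ring
  have h6 : W ≤ (B.card : ℝ) ^ 2 * S.card / 4 := by
    rw [sq] at h5
    exact le_of_mul_le_mul_right h5 hW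
  linarith

/-- Let `G` be a finite connected graph with at least one edge. Suppose that `G` has no bridge, or
that the number `β` of its bridges satisfies `β ^ 2 < 4 σ²`, where `σ²` is the variance of the
order of the subtrees of `G`. Then `G` has an edge `e` such that `G \ e` is connected and its mean
subtree order is less than that of `G`. -/
theorem result {V : Type*} [Finite V] (G : SimpleGraph V) (hG : G.Connected)
    (hE : G.edgeSet.Nonempty)
    (hβ : bridges G = ∅ ∨ ((bridges G).ncard : ℝ) ^ 2 < 4 * variance G) :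
    ∃ e ∈ G.edgeSet, (G.deleteEdges {e}).Connected ∧
      meanOrder (G.deleteEdges {e}) < meanOrder G := by
  classical
  have := Fintype.ofFinite V
  obtain ⟨e₀, he₀⟩ := hE
  induction e₀ using Sym2.ind with
  | _ u₀ v₀ =>
  rw [mem_edgeSet] at he₀
  set S := subtrees G with hS
  set f : (⊤ : SimpleGraph V).Subgraph → ℝ := fun H => (H.verts.ncard : ℝ) with hf
  set m := meanOrder G with hm
  have hSpos : (0 : ℝ) < S.card := by
    have : 0 < S.card := card_pos.mpr ⟨_, singleton_mem u₀⟩
    exact_mod_cast this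
  have hmS : m * S.card = ∑ H ∈ S, f H := by
    change (∑ H ∈ S, f H) / (S.card : ℝ) * S.card = _
    exact div_mul_cancel₀ _ hSpos.ne'
  have hmean : ∑ H ∈ S, (f H - m) = 0 := by
    rw [sum_sub_distrib, sum_const, nsmul_eq_mul]
    linarith
  have hW : 0 < ∑ H ∈ S, (f H - m) ^ 2 := by
    refine lt_of_le_of_ne (sum_nonneg fun _ _ => sq_nonneg _) fun h => ?_
    have h0 := (sum_eq_zero_iff_of_nonneg fun H _ => sq_nonneg (f H - m)).mp h.symm
    have h1 := h0 _ (singleton_mem u₀)
    have h2 := h0 _ (edge_mem he₀)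
    rw [sq_eq_zero_iff, sub_eq_zero] at h1 h2
    have h3 := h1.trans h2.symm
    simp only [hf, singletonSubgraph_verts, subgraphOfAdj_verts, Set.ncard_singleton,
      Set.ncard_pair he₀.ne] at h3
    norm_num at h3
  have hfin : (bridges G).Finite := Set.toFinite _
  set B : Finset (Sym2 V) := hfin.toFinset with hBdef
  have hfinE : G.edgeSet.Finite := Set.toFinite _
  set E : Finset (Sym2 V) := hfinE.toFinset with hEdef
  have hBE : B ⊆ E := by
    intro e he
    rw [hBdef, Set.Finite.mem_toFinset] at he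
    rw [hEdef, Set.Finite.mem_toFinset]
    exact he.1
  have hBcard : (B.card : ℝ) = (bridges G).ncard := by
    rw [hBdef, Set.ncard_eq_toFinset_card _ hfin]
  have hvar : ∑ H ∈ S, (f H - m) ^ 2 = variance G * S.card := by
    change _ = (∑ H ∈ S, (f H - m) ^ 2) / (S.card : ℝ) * S.card
    exact (div_mul_cancel₀ _ hSpos.ne').symm
  have hβ' : (B.card : ℝ) ^ 2 * S.card < 4 * ∑ H ∈ S, (f H - m) ^ 2 := by
    rcases hβ with h | h
    · rw [hBcard, h]
      simp only [Set.ncard_empty, Nat.cast_zero]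
      norm_num
      exact hW
    · rw [hvar, hBcard]
      have := mul_lt_mul_of_pos_right h hSpos
      linarith
  obtain ⟨e, he, hpos⟩ := exists_pos S f E B hBE
    (fun e H => if e ∈ H.edgeSet then 1 else 0)
    (fun e H => by by_cases h : e ∈ H.edgeSet <;> simp [h])
    (fun H hH => by
      obtain ⟨h1, h2⟩ := mem_subtrees.mp hH
      rw [sum_ite, sum_const_zero, add_zero, sum_const, nsmul_eq_mul, mul_one]
      have h3 : E.filter (fun e => e ∈ H.edgeSet) = (Set.toFinite H.edgeSet).toFinset := by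
        ext e
        simp only [mem_filter, hEdef, Set.Finite.mem_toFinset]
        exact ⟨fun h => h.2, fun h => ⟨h2 h, h⟩⟩
      rw [h3, ← Set.ncard_eq_toFinset_card]
      have h4 := ((isTree_iff H).mp h1).2
      simp only [hf]
      rw [← h4]
      push_cast
      ring) m hmean hW hβ'
  rw [mem_sdiff, hBdef, hEdef, Set.Finite.mem_toFinset, Set.Finite.mem_toFinset] at he
  refine ⟨e, he.1, ?_, ?_⟩
  · have hb : ¬ G.IsBridge e := fun h => he.2 ⟨he.1, h⟩
    induction e using Sym2.ind with
    | _ x y => exact hG.connected_delete_edge_of_not_isBridge hb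
  · have hS' : subtrees (G.deleteEdges {e}) = S.filter (fun H => e ∉ H.edgeSet) := by
      ext H
      rw [mem_filter, mem_subtrees, hS, mem_subtrees, edgeSet_deleteEdges]
      constructor
      · rintro ⟨a, b⟩
        exact ⟨⟨a, fun x hx => (b hx).1⟩, fun h => (b h).2 rfl⟩
      · rintro ⟨⟨a, b⟩, c⟩
        exact ⟨a, fun x hx => ⟨b hx, fun h => c (h ▸ hx)⟩⟩
    have hne : (0 : ℝ) < (subtrees (G.deleteEdges {e})).card := by
      have : 0 < (subtrees (G.deleteEdges {e})).card := card_pos.mpr ⟨_, singleton_mem u₀⟩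
      exact_mod_cast this
    have h1 : ∑ H ∈ subtrees (G.deleteEdges {e}), (f H - m) =
        - ∑ H ∈ S, (if e ∈ H.edgeSet then (1 : ℝ) else 0) * (f H - m) := by
      have hsp := sum_filter_add_sum_filter_not S (fun H => e ∉ H.edgeSet) (fun H => f H - m)
      have hq : ∑ H ∈ S, (if e ∈ H.edgeSet then (1 : ℝ) else 0) * (f H - m) =
          ∑ H ∈ S.filter (fun H => ¬ e ∉ H.edgeSet), (f H - m) := by
        have h2 : ∑ H ∈ S.filter (fun H => e ∉ H.edgeSet),
            (if e ∈ H.edgeSet then (1 : ℝ) else 0) * (f H - m) = 0 := by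
          refine sum_eq_zero fun H hH => ?_
          rw [if_neg (mem_filter.mp hH).2, zero_mul]
        rw [← sum_filter_add_sum_filter_not S (fun H => e ∉ H.edgeSet)
          (fun H => (if e ∈ H.edgeSet then (1 : ℝ) else 0) * (f H - m)), h2, zero_add]
        refine sum_congr rfl fun H hH => ?_
        rw [if_pos (not_not.mp (mem_filter.mp hH).2), one_mul]
      rw [hS', hq]
      rw [hmean] at hsp
      linarith
    rw [sum_sub_distrib, sum_const, nsmul_eq_mul] at h1
    rw [meanOrder, div_lt_iff₀ hne]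
    have h3 : ∑ H ∈ subtrees (G.deleteEdges {e}), (H.verts.ncard : ℝ) =
      ∑ H ∈ subtrees (G.deleteEdges {e}), f H := rfl
    rw [h3]
    linarith

end Pool.Agent.Results.MP_d417b4_co.FewBridges
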